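import Pool.Agent.J4H43.SW.Stm

/-!
# SW3: the index weight (for helper43)
-/

set_option autoImplicit false

namespace Pool.Agent.J4H18.SW

open Polynomial Pool.Agent.Helper392_GT Pool.Agent.J4H43.FR Pool.Agent.J4H43.SW

universe u

attribute [local instance 100] LieRing.ofAssociativeRing

variable {k : Type u} [Field k]

/-- the elements of weight `n` are homogeneous of degree `n` -/
theorem Hm_toAssoc {n : ℕ} {σ : F2 k} (h : σ ∈ wt k n) : Hm n (toAssoc k σ) := by
  have ex : toAssoc k (gx k) = FreeAlgebra.ι k 0 := FreeLieAlgebra.lift_of_apply (R := k) _ 0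
  have ey : toAssoc k (gy k) = FreeAlgebra.ι k 1 := FreeLieAlgebra.lift_of_apply (R := k) _ 1
  have hι : ∀ i : Fin 2, Hm 1 (FreeAlgebra.ι k i : FreeAlgebra k (Fin 2)) := fun i m => hc_ι m i
  refine wt_ind (fun n u => Hm n (toAssoc k u)) ?_ ?_ ?_ ?_ ?_ ?_ ?_ n h
  · intro n
    rw [map_zero]
    exact Hm.zero n
  · intro n a b ha hb
    rw [map_add]
    exact ha.add hb
  · intro n c a ha
    rw [map_smul]
    exact ha.smul c
  · rw [ex]; exact hι 0
  · rw [ey]; exact hι 1
  · intro n u _ hu
    rw [LieHom.map_lie, Ring.lie_def, ex]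
    refine Hm.sub ?_ (hu.mul (hι 0))
    rw [add_comm]
    exact (hι 0).mul hu
  · intro n u _ hu
    rw [LieHom.map_lie, Ring.lie_def, ey]
    refine Hm.sub ?_ (hu.mul (hι 1))
    rw [add_comm]
    exact (hι 1).mul hu

theorem length_wd (v : FreeMonoid ℕ) : ∀ a, (wd a v).length =
    a + v.length + (FreeMonoid.toList v).sum := by
  induction v using FreeMonoid.recOn with
  | one =>
    intro a
    induction a with
    | zero => rw [wd_zero_one]; rfl
    | succ a ih =>
      rw [wd_succ, FreeMonoid.length_mul, FreeMonoid.length_of, ih]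
      omega
  | of_mul c v ih =>
    intro a
    induction a with
    | zero =>
      rw [wd_cons, FreeMonoid.length_mul, FreeMonoid.length_of, ih, FreeMonoid.length_mul,
        FreeMonoid.length_of, FreeMonoid.toList_mul, FreeMonoid.toList_of, List.sum_append,
        List.sum_singleton]
      omega
    | succ a ih2 =>
      rw [wd_succ, FreeMonoid.length_mul, FreeMonoid.length_of, ih2]
      omega

theorem t_SW3 : S_SW3.{u} := by
  intro k _ n σ hσ a v hv
  rw [wc_Ph] at hv
  have h1 : wc (wd a v) (toAssoc k σ) ≠ 0 := hv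
  have h2 := wc_hc (wd a v) n (toAssoc k σ)
  rw [(Hm_toAssoc hσ).self] at h2
  have h3 : (wd a v).length = n := by
    by_contra h
    rw [if_neg h] at h2
    exact h1 h2
  rw [← length_wd, h3]

end Pool.Agent.J4H18.SW
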