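import Pool.Agent.J4H43.SW.Stm
import Pool.Agent.Helper771.FreeLieGrad

/-!
# SW5: the operators of the elements of a free Lie algebra with `r` generators (for helper43)
-/

set_option autoImplicit false

namespace Pool.Agent.J4H18.SW

open Polynomial Pool.Agent.Helper392_GT Pool.Agent.J4H43.FR Pool.Agent.J4H43.SW

universe u

attribute [local instance 100] LieRing.ofAssociativeRing

theorem op_main_r {k : Type u} [Field k] {r : ℕ} {σ : Fin r → F2 k}
    {D : Fin r → LieDerivation k (F2 k) (F2 k)} (hD : ∀ i, IsIharaDer (D i) (σ i))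
    (R : FreeLieAlgebra k (Fin r)) :
    ∃ h : F2 k, PrO (FreeLieAlgebra.lift k D R)
      (FreeAlgebra.lift k (fun i => rr (σ i)) (toA k r R)) h := by
  refine Pool.Agent.Helper771.FreeLieGrad.free_induction (P := fun R => ∃ h : F2 k,
    PrO (FreeLieAlgebra.lift k D R) (FreeAlgebra.lift k (fun i => rr (σ i)) (toA k r R)) h)
    ?_ ?_ ?_ ?_ ?_ R
  · intro i
    refine ⟨σ i, ?_⟩
    have e1 : FreeLieAlgebra.lift k D (FreeLieAlgebra.of k i) = D i :=
      FreeLieAlgebra.lift_of_apply (R := k) D i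
    have e2 : toA k r (FreeLieAlgebra.of k i) = FreeAlgebra.ι k i :=
      FreeLieAlgebra.lift_of_apply (R := k) _ i
    rw [e1, e2, FreeAlgebra.lift_ι_apply]
    exact PrO.base (hD i)
  · refine ⟨0, ?_⟩
    rw [map_zero, map_zero, map_zero]
    exact PrO.zero
  · rintro a b ⟨h, H⟩ ⟨h', H'⟩
    refine ⟨h + h', ?_⟩
    rw [map_add, map_add, map_add]
    exact H.add H'
  · rintro c a ⟨h, H⟩
    refine ⟨c • h, ?_⟩
    rw [map_smul, map_smul, map_smul]
    exact H.smul c
  · rintro a b ⟨h, H⟩ ⟨h', H'⟩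
    refine ⟨⁅h, h'⁆ + (FreeLieAlgebra.lift k D a) h' - (FreeLieAlgebra.lift k D b) h, ?_⟩
    rw [LieHom.map_lie, LieHom.map_lie, Ring.lie_def, map_sub, map_mul, map_mul]
    exact H.lie H'

theorem t_SW5 : S_SW5.{u} := by
  intro k _ r σ D hD R h hR q hh m hm
  obtain ⟨h0, H⟩ := op_main_r hD R
  have h1 : ⁅gy k, h - h0⁆ = 0 := by
    rw [lie_sub, ← H.gyh, hR, sub_self]
  have h3 := y_comm h1 m hm
  rw [Ph_sub, coeff_sub, sub_eq_zero] at h3
  rw [H.one, coeff_neg, ← h3, map_neg, Ph_mem hh _ (Nat.lt_succ_self q) m, neg_zero]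

end Pool.Agent.J4H18.SW
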